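import Pool.Agent.Helper52.MA.Defs2

/-!
# Project MA (helper52), module MA-16: countably closed forcing does not collapse `ℵ₁`
-/

set_option autoImplicit false
set_option linter.unusedSectionVars false

namespace Pool.Agent.Helper52.MA

open Set Pool.Agent.Helper33.HM Pool.Agent.Helper33.HMG Pool.Agent.Helper32.HB

universe u

section CH

variable {Ω : Type} [LinearOrder Ω] [WellFoundedLT Ω]

/-- Decreasing sequences have lower bounds. -/
theorem noCollH_lower {Ω : Type} (pn : ℕ → PH Ω) (h : ∀ n, pn (n + 1) ≤ pn n) :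
    ∃ q : PH Ω, ∀ n, q ≤ pn n := by
  classical
  have hmono : ∀ m n, m ≤ n → pn n ≤ pn m := by
    intro m n hmn
    induction n, hmn using Nat.le_induction with
    | base => exact le_rfl
    | succ n _ ih => exact (h n).trans ih
  refine ⟨⟨fun x => if hx : ∃ n, (pn n).f x ≠ none then (pn hx.choose).f x else none, ?_⟩, ?_⟩
  · refine (countable_iUnion fun n => (pn n).cnt).mono ?_
    intro x hx
    by_cases hx' : ∃ n, (pn n).f x ≠ none
    · exact mem_iUnion.2 hx'
    · exact absurd (dif_neg hx') hx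
  · intro n x a hxa
    have hx' : ∃ n, (pn n).f x ≠ none := ⟨n, by rw [hxa]; exact Option.some_ne_none a⟩
    change (if hx : ∃ n, (pn n).f x ≠ none then (pn hx.choose).f x else none) = some a
    rw [dif_pos hx']
    have h1 := hx'.choose_spec
    obtain ⟨b, hb⟩ := Option.ne_none_iff_exists'.1 h1
    have h2 : (pn (max n hx'.choose)).f x = some a := hmono _ _ (le_max_left _ _) x a hxa
    have h3 : (pn (max n hx'.choose)).f x = some b := hmono _ _ (le_max_right _ _) x b hb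
    rw [hb, ← h3, h2]

/-- MA-16: countably closed forcing adds no map from `ℕ` onto `Ω`. -/
theorem noColl_PH (hu : ¬ Countable Ω) : NoColl (PH Ω) Ω := by
  classical
  intro F
  by_contra hne
  obtain ⟨p, hp1, hp2⟩ := RO.ne_bot_iff.1 hne
  have hp1' : ∀ n x y, x ≠ y → p ∈ (F n x ⊓ F n y)ᶜ := by
    intro n x y hxy
    exact RO.mem_iInf.1 (RO.mem_iInf.1 (RO.mem_iInf.1 (RO.mem_iInf.1 hp1 n) x) y) hxy
  have hp2' : ∀ x, p ∈ ⨆ n, F n x := RO.mem_iInf.1 hp2
  have hΩ : Nonempty Ω := by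
    by_contra hc
    rw [not_nonempty_iff] at hc
    exact hu inferInstance
  obtain ⟨o⟩ := hΩ
  have hstep : ∀ (n : ℕ) (q : PH Ω), ∃ z : PH Ω × Ω, z.1 ≤ q ∧
      (z.1 ∈ F n z.2 ∨ ∀ r, r ≤ z.1 → ∀ x, ¬ r ∈ F n x) := by
    intro n q
    by_cases hq : ∃ r, r ≤ q ∧ ∃ x, r ∈ F n x
    · obtain ⟨r, hr, x, hx⟩ := hq
      exact ⟨(r, x), hr, Or.inl hx⟩
    · refine ⟨(q, o), le_rfl, Or.inr ?_⟩
      intro r hr x hx
      exact hq ⟨r, hr, x, hx⟩
  choose nx h1 h2 using hstep
  let pn : ℕ → PH Ω := fun n => Nat.rec p (fun n q => (nx n q).1) n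
  have hpn : ∀ n, pn (n + 1) = (nx n (pn n)).1 := fun n => rfl
  obtain ⟨q, hq⟩ := noCollH_lower pn fun n => by rw [hpn]; exact h1 n (pn n)
  have hx : ∃ x : Ω, ∀ n, x ≠ (nx n (pn n)).2 := by
    by_contra hc
    push Not at hc
    apply hu
    have hs : Function.Surjective fun n => (nx n (pn n)).2 := fun x => by
      obtain ⟨n, hn⟩ := hc x
      exact ⟨n, hn.symm⟩
    exact hs.countable
  obtain ⟨x, hx⟩ := hx
  have hqp : q ≤ p := hq 0
  obtain ⟨r, hr, n, hrn⟩ := RO.mem_iSup.1 (hp2' x) q hqp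
  have hrn' : r ≤ (nx n (pn n)).1 := hr.trans (hq (n + 1))
  rcases h2 n (pn n) with h | h
  · exact hp1' n x _ (hx n) r (hr.trans hqp) ⟨hrn, RO.mem_lower hrn' h⟩
  · exact h r hrn' x hrn

end CH

end Pool.Agent.Helper52.MA
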