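import Mathlib

/-!
# Project MA (helper52), module MA-15: the order type `ω₁` exists
-/

set_option autoImplicit false

namespace Pool.Agent.Helper52.MA

open Set

theorem omT_card : Cardinal.mk (Ordinal.omega.{0} 1).ToType = Cardinal.aleph 1 := by
  have h := Ordinal.card_type (· < · : (Ordinal.omega.{0} 1).ToType → _ → Prop)
  rw [Ordinal.type_toType] at h
  rw [← h, ← Cardinal.ord_aleph, Cardinal.card_ord]

theorem omT_Iio (b : (Ordinal.omega.{0} 1).ToType) : (Iio b).Countable := by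
  obtain ⟨⟨o, ho⟩, rfl⟩ := (Ordinal.ToType.mk (o := Ordinal.omega.{0} 1)).surjective b
  have h1 : (Iio o).Countable := by
    rw [← Cardinal.le_aleph0_iff_set_countable, Cardinal.mk_Iio_ordinal]
    have h2 : o.card < Cardinal.aleph 1 := by
      have h3 : o < (Cardinal.aleph 1).ord := by
        rw [Cardinal.ord_aleph]
        exact ho
      exact Cardinal.lt_ord.1 h3
    rw [← Order.lt_succ_iff, Cardinal.succ_aleph0] 
    have h4 := Cardinal.lift_lt.{0, 1}.2 h2
    rw [Cardinal.lift_aleph, Ordinal.lift_one] at h4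
    exact h4
  have h2 : Iio (Ordinal.ToType.mk ⟨o, ho⟩) =
      (fun x : Iio (Ordinal.omega.{0} 1) => Ordinal.ToType.mk x) '' {x | x.1 < o} := by
    ext x
    obtain ⟨y, rfl⟩ := (Ordinal.ToType.mk (o := Ordinal.omega.{0} 1)).surjective x
    simp only [mem_Iio, mem_image, mem_ofPred_eq, EmbeddingLike.apply_eq_iff_eq, exists_eq_right]
    rw [OrderIso.lt_iff_lt]
    rfl
  rw [h2]
  refine Set.Countable.image ?_ _
  exact h1.preimage_of_injOn (f := fun x : Iio (Ordinal.omega.{0} 1) => x.1)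
    (fun x _ y _ h => Subtype.ext h)

/-- MA-15: the order type `ω₁` exists. -/
theorem exists_Omega : ∃ (Ω : Type) (_ : LinearOrder Ω), WellFoundedLT Ω ∧
    (∀ s : Set Ω, s.Countable → ∃ b, ∀ x ∈ s, x < b) ∧ (∀ b : Ω, (Iio b).Countable) ∧
      Cardinal.mk Ω = Cardinal.aleph 1 ∧ ¬ Countable Ω := by
  have hu : ¬ Countable (Ordinal.omega.{0} 1).ToType := by
    rw [← Cardinal.mk_le_aleph0_iff, omT_card, not_le]
    exact Cardinal.aleph0_lt_aleph_one
  refine ⟨(Ordinal.omega.{0} 1).ToType, inferInstance, inferInstance, ?_, omT_Iio, omT_card, hu⟩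
  intro s hs
  by_contra hc
  push Not at hc
  apply hu
  rw [← Set.countable_univ_iff]
  have h1 : (⋃ x ∈ s, Iic x).Countable := by
    refine hs.biUnion fun x _ => ?_
    rw [← Iio_insert]
    exact (omT_Iio x).insert x
  refine h1.mono ?_
  intro b _
  obtain ⟨x, hx, hbx⟩ := hc b
  exact mem_iUnion₂.2 ⟨x, hx, hbx⟩

end Pool.Agent.Helper52.MA
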