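import Pool.Agent.Helper52.MA.Defs

/-!
# Project MA (helper52), module MA-5: bookkeeping
-/

set_option autoImplicit false
set_option linter.unusedSectionVars false

namespace Pool.Agent.Helper52.MA

open Set Pool.Agent.Helper33.HM

universe u

/-- The families of sets of conditions of length `β`. -/
def BookK (Ω : Type) (β : Ordinal.{0}) : Type 1 :=
  {X : Ω → Ω → Set (Cond Ordinal.{0} Ω) // ∀ x y, ∀ p ∈ X x y, p.lt β}

theorem book_small (Ω : Type) (β : Ordinal.{0}) : Small.{0} (BookK Ω β) := by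
  have h1 : Small.{0} (Iio β → Option Ω) := inferInstance
  have h2 : Small.{0} (Ω → Ω → Set (Iio β → Option Ω)) := inferInstance
  let F : BookK Ω β → (Ω → Ω → Set (Iio β → Option Ω)) :=
    fun X x y => {f | ∃ p ∈ X.1 x y, ∀ i, f i = p.f i.1}
  have hF : Function.Injective F := by
    have key : ∀ X X' : BookK Ω β, F X = F X' → ∀ x y, X.1 x y ⊆ X'.1 x y := by
      intro X X' h x y p hp
      have h3 : (fun i : Iio β => p.f i.1) ∈ F X x y := ⟨p, hp, fun _ => rfl⟩
      rw [h] at h3
      obtain ⟨p', hp', h4⟩ := h3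
      have h5 : p = p' := by
        apply Cond.ext
        funext j
        by_cases hj : j < β
        · exact h4 ⟨j, hj⟩
        · have h6 : p.f j = none := by
            by_contra hc
            exact hj (X.2 x y p hp j hc)
          have h7 : p'.f j = none := by
            by_contra hc
            exact hj (X'.2 x y p' hp' j hc)
          rw [h6, h7]
      rw [h5]
      exact hp'
    intro X X' h
    apply Subtype.ext
    funext x y
    exact Subset.antisymm (key X X' h x y) (key X' X h.symm x y)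
  exact small_of_injective hF

theorem book_card (Ω : Type) :
    Cardinal.mk ((Σ β : Ordinal.{0}, BookK Ω β) × Ordinal.{0}) ≤ Cardinal.mk Ordinal.{0} := by
  have hinf : Cardinal.aleph0 ≤ Cardinal.mk Ordinal.{0} := by
    rw [Cardinal.mk_ordinal]
    exact (Cardinal.lift_lt_univ'.{0, 1} Cardinal.aleph0).le.trans' (by simp)
  have h1 : Cardinal.mk (Σ β : Ordinal.{0}, BookK Ω β) ≤ Cardinal.mk Ordinal.{0} := by
    rw [Cardinal.mk_sigma]
    refine (Cardinal.sum_le_sum _ (fun _ => Cardinal.mk Ordinal.{0}) ?_).trans ?_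
    · intro β
      have h2 := Cardinal.small_iff_lift_mk_lt_univ.1 (book_small Ω β)
      rw [Cardinal.mk_ordinal]
      simpa using h2.le
    · rw [Cardinal.sum_const']
      exact (Cardinal.mul_eq_self hinf).le
  rw [Cardinal.mk_prod, Cardinal.lift_id, Cardinal.lift_id]
  exact (mul_le_mul' h1 le_rfl).trans (Cardinal.mul_eq_self hinf).le

/-- MA-5: bookkeeping. -/
theorem exists_code (Ω : Type) :
    ∃ code : Ordinal.{0} → Ω → Ω → Set (Cond Ordinal.{0} Ω),
      ∀ (β : Ordinal.{0}) (X : Ω → Ω → Set (Cond Ordinal.{0} Ω)), (∀ x y, ∀ p ∈ X x y, p.lt β) →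
        ∃ i, β ≤ i ∧ code i = X := by
  obtain ⟨g⟩ := Cardinal.le_def _ _ |>.1 (book_card Ω)
  refine ⟨fun i x y => {p | ∃ z : (Σ β : Ordinal.{0}, BookK Ω β) × Ordinal.{0}, g z = i ∧
    p ∈ z.1.2.1 x y}, ?_⟩
  intro β X hX
  by_contra hc
  push Not at hc
  have h1 : ∀ γ : Ordinal.{0}, g (⟨β, ⟨X, hX⟩⟩, γ) < β := by
    intro γ
    by_contra h2
    apply hc _ (not_lt.1 h2)
    funext x y
    ext p
    constructor
    · rintro ⟨z, hz, hp⟩
      have h3 := g.injective hz
      subst h3
      exact hp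
    · intro hp
      exact ⟨_, rfl, hp⟩
  have h2 : Function.Injective fun γ : Ordinal.{0} => (⟨g (⟨β, ⟨X, hX⟩⟩, γ), h1 γ⟩ : Iio β) := by
    intro γ γ' h
    have h3 := g.injective (Subtype.ext_iff.1 h)
    exact (Prod.ext_iff.1 h3).2
  exact not_small_ordinal.{0, 0} (small_of_injective h2)

end Pool.Agent.Helper52.MA
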