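import Pool.Agent.Helper84.MA.PairN
import Pool.Agent.Helper55.MA.Clo
import Pool.Agent.Helper61.MA.Vals
import Pool.Agent.Helper82.MA.Om
import Pool.Agent.Helper90.MA.NoCollH
import Pool.Agent.Helper83.MA.RealH
import Pool.Agent.Helper28.MA.OnN

/-!
# Project MA (helper52), module MA-18: the Continuum Hypothesis holds in the model
-/

set_option autoImplicit false
set_option linter.unusedSectionVars false

namespace Pool.Agent.Helper52.MA

open Set Pool.Agent.Helper33.HM Pool.Agent.Helper33.HMG Pool.Agent.Helper32.HB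

universe u

section CH

variable {Ω : Type} [LinearOrder Ω] [WellFoundedLT Ω]

theorem chm_mem_omega {z : ZFSet.{0}} (hz : z ∈ ZFSet.omega) : ∃ n : ℕ, z = Gen.nat n := by
  obtain ⟨y, rfl⟩ := Quotient.exists_rep z
  obtain ⟨a, ha⟩ : y ∈ PSet.omega := hz
  exact ⟨a.down, ZFSet.sound ha⟩

/-- MA-18: the Continuum Hypothesis holds in the model. -/
theorem ch_model {R : Type} {W : R → (ℕ → Nm (PH Ω)) → PH Ω → Nm (PH Ω) → Prop} (g : Gen W)
    (hg : Meets Ω g)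
    (hr : ∀ (r : RH) (t : List (Nm (PH Ω))), (∀ x ∈ t, x ∈ g.N) →
      ∃ k, (∃ x ∈ g.N, WH Ω r (asg t) (g.pc k) x) ∨ ∀ q, q ≤ g.pc k → ∀ x, ¬ WH Ω r (asg t) q x)
    (hI : ∀ b : Ω, (Iio b).Countable) (hu : ¬ Countable Ω) : CHModel g.M := by
  classical
  have hw : wN Ω ∈ g.N := wN_mem g hg
  have hf : fN Ω ∈ g.N := by
    obtain ⟨k, ⟨x, hx, hx'⟩ | hk⟩ := hr .f [] (by simp)
    · have : x = fN Ω := hx'
      rw [← this]
      exact hx
    · exact absurd rfl (hk _ le_rfl (fN Ω))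
  -- the members of `f`
  have hmem : ∀ z ∈ g.val (fN Ω), ∃ (x : Ω) (a : Set ℕ), on x ∈ g.N ∧ rlN (Ω := Ω) a ∈ g.N ∧
      (∃ k, (g.pc k).f x = some a) ∧ z = ZFSet.pair (g.val (on x)) (g.val (rlN a)) := by
    intro z hz
    obtain ⟨⟨⟨x, a, c⟩, hc⟩, h1, ⟨k, hk⟩, h3⟩ := g.mem_val.1 hz
    have h1' : pairN (on x) (rlN a) ∈ g.N := h1
    have hx : on x ∈ g.N := by
      obtain ⟨l, ⟨y, hy, hy'⟩ | hl⟩ := hr .fst [pairN (on x) (rlN a)] (by simp [h1'])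
      · obtain ⟨τ, hτ⟩ : ∃ τ, pairN (on x) (rlN a) = pairN y τ := hy'
        rw [(pairN_injective hτ).1]
        exact hy
      · exact absurd ⟨_, rfl⟩ (hl _ le_rfl (on x))
    have ha : rlN a ∈ g.N := snd_mem g hg h1'
    refine ⟨x, a, hx, ha, ⟨k, hk x a hc⟩, ?_⟩
    rw [← val_pairN' g hg hx ha]
    exact h3.symm
  refine ⟨g.val (wN Ω), ⟨_, hw, rfl⟩, isOmega1 g hg hI (noColl_PH hu), g.val (fN Ω),
    ⟨_, hf, rfl⟩, ?_, ?_⟩
  · intro n y z hy hz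
    obtain ⟨x1, a1, hx1, ha1, ⟨k1, hk1⟩, e1⟩ := hmem _ hy
    obtain ⟨x2, a2, hx2, ha2, ⟨k2, hk2⟩, e2⟩ := hmem _ hz
    obtain ⟨e1a, e1b⟩ := ZFSet.pair_injective e1
    obtain ⟨e2a, e2b⟩ := ZFSet.pair_injective e2
    have hx : x1 = x2 := val_on_inj g hx1 hx2 (e1a.symm.trans e2a)
    subst hx
    have h1 : (g.pc (max k1 k2)).f x1 = some a1 := g.pc_le (le_max_left k1 k2) x1 a1 hk1
    have h2 : (g.pc (max k1 k2)).f x1 = some a2 := g.pc_le (le_max_right k1 k2) x1 a2 hk2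
    have h3 : a1 = a2 := Option.some.inj (h1.symm.trans h2)
    rw [e1b, e2b, h3]
  · rintro x ⟨σ, hσ, rfl⟩ hxω
    obtain ⟨k, ⟨x', hx', hx''⟩ | hk⟩ := hr .real [σ] (by simp [hσ])
    swap
    · exfalso
      obtain ⟨q, hq, a, ha⟩ := exists_real σ (g.pc k)
      exact hk q hq (rlN a) ⟨a, rfl, ha⟩
    obtain ⟨a, rfl, ha⟩ : ∃ a : Set ℕ, x' = rlN a ∧ ∀ n, (n ∈ a → g.pc k ∈ memv (numN n) σ) ∧
      (n ∉ a → g.pc k ∈ (memv (numN n) σ)ᶜ) := hx''
    have hval : g.val σ = g.val (rlN a) := by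
      ext z
      constructor
      · intro hz
        obtain ⟨n, rfl⟩ := chm_mem_omega (hxω hz)
        by_cases hn : n ∈ a
        · exact g.mem_val.2 ⟨⟨n, hn⟩, numN_mem g n, ⟨0, le_top⟩, g.val_num n⟩
        · exfalso
          have h1 : g.val (numN n) ∈ g.val σ := by
            have h2 : g.val (numN n) = Gen.nat n := g.val_num n
            rw [h2]
            exact hz
          obtain ⟨l, hl⟩ := (g.mem_iff (numN_mem g n) hσ).2 h1
          exact (ha n).2 hn (g.pc (max k l)) (g.pc_le (le_max_left k l))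
            (fmem_mono hl (g.pc_le (le_max_right k l)))
      · intro hz
        obtain ⟨⟨n, hn⟩, h1, -, rfl⟩ := g.mem_val.1 hz
        exact (g.mem_iff h1 hσ).1 ⟨k, (ha n).1 hn⟩
    obtain ⟨k', ⟨y, hy, hy'⟩ | hk'⟩ := hr .place [rlN a] (by simp [hx'])
    swap
    · exfalso
      obtain ⟨q, hq, z, hz⟩ := exists_place hu a (g.pc k')
      exact hk' q hq (on z) ⟨a, rfl, z, rfl, hz⟩
    obtain ⟨a', ha', z, rfl, hz⟩ : ∃ a' : Set ℕ, rlN a = rlN (Ω := Ω) a' ∧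
      ∃ z : Ω, y = on z ∧ (g.pc k').f z = some a' := hy'
    have h1 : rlN a' ∈ g.N := by
      rw [← ha']
      exact hx'
    refine ⟨g.val (on z), (mem_val_wN g).2 ⟨z, hy, rfl⟩, ?_⟩
    rw [hval, ha', ← val_pairN' g hg hy h1]
    exact g.mem_val.2 ⟨⟨(z, a', g.pc k'), hz⟩, pairN_mem g hg hy h1, ⟨k', le_rfl⟩, rfl⟩

end CH

end Pool.Agent.Helper52.MA
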